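import Pool.Agent.Helper46.M8.Fib
import Pool.Agent.Helper46.M8.Ns

/-!
# Data for the metric of positive curvature on `M⁹ = S(ℝ² ⊕ T ℂP²)`

* the base metric is the metric `hm U δ` of `Helper46.M8`;
* the fibre is `Y9 = ℂ ⊕ T`, `y = (y₁, y₂)`, `y₁ = y_e + i y_f`;
* the connection is `D_ζ e = ½ ζ̂`, `D_ζ f = ¼ i ζ̂`, `D_ζ w = ∇^{FS}_ζ w + B(ζ) w - ½⟨ζ̂,w⟩e - ¼⟨iζ̂,w⟩f`,
  where `ζ̂ = hatL ζ`, `h₀(ζ̂, w) = h(ζ, w)`.
-/

open Filter Metric Module Set
open scoped Topology ContDiff Matrix Matrix.Norms.Elementwise ComplexConjugate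

set_option maxSynthPendingDepth 3

namespace Pool.Agent.Helper81.M9
open Pool.Agent.Helper20.PC Pool.Agent.Helper20.HP Pool.Agent.Helper20.M8 Pool.Agent.Helper20.MB
open Pool.Agent.Helper46.M8

/-- the fibre `ℂ ⊕ T`. -/
abbrev Y9 := ℂ × V

/-- the endomorphism `ζ ↦ ζ̂` with `h₀(ζ̂, w) = h(ζ, w)`. -/
noncomputable def hatL (U : Mat) (δ : ℝ) (z : V) : V →L[ℝ] V := (CC U 0 z) ∘L (hm U δ z)

/-- the differential of the Killing field `K_i`. -/
noncomputable def DK (U : Mat) (i : Fin 8) (z : V) : V →L[ℝ] V := fderiv ℝ (Kf U i) z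

/-- the Fubini-Study covariant derivative of the Killing field `K_i`. -/
noncomputable def MK (U : Mat) (i : Fin 8) (z : V) : V →L[ℝ] V :=
  DK U i z + (GamL h0 z).flip (Kf U i z)

lemma MK_apply (U : Mat) (i : Fin 8) (z y : V) :
    MK U i z y = DK U i z y + GamL h0 z y (Kf U i z) := rfl

/-- the differential of the Killing field `K_{Ca}` with `K_{Ca}(z) = w`. -/
noncomputable def DKc (U : Mat) (δ : ℝ) (z w : V) : V →L[ℝ] V :=
  ∑ i, ∑ j, (Cm δ i j * momL U δ z j w) • DK U i z

/-- the differential of the Killing field `K_a` with `K_a(z) = ŵ`. -/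
noncomputable def DKa (U : Mat) (δ : ℝ) (z w : V) : V →L[ℝ] V :=
  ∑ i, (C0 i i * momL U δ z i w) • DK U i z

/-- the endomorphism `B(ζ)`. -/
noncomputable def BL (U : Mat) (δ ε : ℝ) (z : V) : V →L[ℝ] V →L[ℝ] V :=
  ε • (momL U δ z 6).smulRight iL
    - δ • ∑ i, ∑ j, Ii i j • (momL U δ z j).smulRight (MK U i z)

lemma BL_apply (U : Mat) (δ ε : ℝ) (z ζ y : V) :
    BL U δ ε z ζ y = (ε * momL U δ z 6 ζ) • iL y
      - δ • ∑ i, ∑ j, (Ii i j * momL U δ z j ζ) • MK U i z y := by
  simp [BL, smul_smul]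

/-- `Λ_v y`. -/
noncomputable def LamL (z : V) : V →L[ℝ] Y9 →L[ℝ] Y9 :=
  IsBilinearMap.toContinuousBilinearMap (𝕜 := ℝ)
    (f := fun (v : V) (y : Y9) => (((⟨-(1/2) * h0 z v y.2, -(1/4) * h0 z (iL v) y.2⟩ : ℂ),
      (1/2 * y.1.re) • v + (1/4 * y.1.im) • iL v) : Y9))
    ⟨fun a b c => by
        refine Prod.ext (Complex.ext ?_ ?_) ?_ <;> simp only [map_add, _root_.add_apply, Prod.fst_add, Prod.snd_add, Complex.add_re, Complex.add_im, smul_add] <;> first | ring | abel,
     fun r a b => by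
        refine Prod.ext (Complex.ext ?_ ?_) ?_ <;> simp only [map_smul, _root_.smul_apply, smul_eq_mul, Prod.smul_fst, Prod.smul_snd, Complex.smul_re, Complex.smul_im, smul_add, smul_smul] <;> (try ring_nf),
     fun a b c => by
        refine Prod.ext (Complex.ext ?_ ?_) ?_ <;> simp only [map_add, _root_.add_apply, Prod.fst_add, Prod.snd_add, Complex.add_re, Complex.add_im, mul_add, add_smul] <;> abel,
     fun r a b => by
        refine Prod.ext (Complex.ext ?_ ?_) ?_ <;> simp only [map_smul, _root_.smul_apply, smul_eq_mul, Prod.smul_fst, Prod.smul_snd, Complex.smul_re, Complex.smul_im, smul_add, smul_smul] <;> (try ring_nf)⟩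

lemma LamL_apply (z v : V) (y : Y9) :
    LamL z v y = ((⟨-(1/2) * h0 z v y.2, -(1/4) * h0 z (iL v) y.2⟩ : ℂ),
      (1/2 * y.1.re) • v + (1/4 * y.1.im) • iL v) := rfl

/-- the connection. -/
noncomputable def AL9 (U : Mat) (δ ε : ℝ) (z : V) : V →L[ℝ] Y9 →L[ℝ] Y9 :=
  LamL z ∘L hatL U δ z
    + ((ContinuousLinearMap.compL ℝ Y9 V Y9 (ContinuousLinearMap.inr ℝ ℂ V)) ∘L
        ((ContinuousLinearMap.compL ℝ Y9 V V).flip (ContinuousLinearMap.snd ℝ ℂ V))) ∘L
      (GamL h0 z + BL U δ ε z)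

lemma AL9_apply (U : Mat) (δ ε : ℝ) (z ζ : V) (y : Y9) :
    AL9 U δ ε z ζ y = LamL z (hatL U δ z ζ) y + (0, GamL h0 z ζ y.2 + BL U δ ε z ζ y.2) := rfl

/-- the fibre metric. -/
noncomputable def kL9 (z : V) : Y9 →L[ℝ] Y9 →L[ℝ] ℝ :=
  IsBilinearMap.toContinuousBilinearMap (𝕜 := ℝ)
    (f := fun y p : Y9 => y.1.re * p.1.re + y.1.im * p.1.im + h0 z y.2 p.2)
    ⟨fun a b c => by simp only [map_add, _root_.add_apply, Prod.fst_add, Prod.snd_add, Complex.add_re, Complex.add_im]; ring,
     fun r a b => by simp only [map_smul, _root_.smul_apply, smul_eq_mul, Prod.smul_fst, Prod.smul_snd, Complex.smul_re, Complex.smul_im]; ring,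
     fun a b c => by simp only [map_add, _root_.add_apply, Prod.fst_add, Prod.snd_add, Complex.add_re, Complex.add_im]; ring,
     fun r a b => by simp only [map_smul, _root_.smul_apply, smul_eq_mul, Prod.smul_fst, Prod.smul_snd, Complex.smul_re, Complex.smul_im]; ring⟩

lemma kL9_apply (z : V) (y p : Y9) :
    kL9 z y p = y.1.re * p.1.re + y.1.im * p.1.im + h0 z y.2 p.2 := rfl

/-! ### the bivector `b = y ∧ p` -/

/-- `b_e = y_e p₂ - p_e y₂`. -/
noncomputable def be (y p : Y9) : V := y.1.re • p.2 - p.1.re • y.2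
/-- `- i b_f`, `b_f = y_f p₂ - p_f y₂`. -/
noncomputable def nf (y p : Y9) : V := - iL (y.1.im • p.2 - p.1.im • y.2)
/-- `q = ½ b_e - ¼ i b_f`. -/
noncomputable def qq (y p : Y9) : V := (1/2 : ℝ) • be y p + (1/4 : ℝ) • nf y p
/-- `b_{ef}`. -/
def ef (y p : Y9) : ℝ := y.1.re * p.1.im - y.1.im * p.1.re

lemma be_add_left (a b c : Y9) : be (a + b) c = be a c + be b c := by
  simp only [be, Prod.fst_add, Prod.snd_add, Complex.add_re, add_smul, smul_add]; abel
lemma be_add_right (a b c : Y9) : be a (b + c) = be a b + be a c := by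
  simp only [be, Prod.fst_add, Prod.snd_add, Complex.add_re, add_smul, smul_add]; abel
lemma be_smul_left (r : ℝ) (a b : Y9) : be (r • a) b = r • be a b := by
  simp only [be, Prod.smul_fst, Prod.smul_snd, Complex.smul_re, smul_eq_mul, smul_sub, smul_smul, mul_comm]
lemma be_smul_right (r : ℝ) (a b : Y9) : be a (r • b) = r • be a b := by
  simp only [be, Prod.smul_fst, Prod.smul_snd, Complex.smul_re, smul_eq_mul, smul_sub, smul_smul, mul_comm]
lemma nf_add_left (a b c : Y9) : nf (a + b) c = nf a c + nf b c := by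
  simp only [nf, Prod.fst_add, Prod.snd_add, Complex.add_im, add_smul, smul_add, map_sub, map_add]; abel
lemma nf_add_right (a b c : Y9) : nf a (b + c) = nf a b + nf a c := by
  simp only [nf, Prod.fst_add, Prod.snd_add, Complex.add_im, add_smul, smul_add, map_sub, map_add]; abel
lemma nf_smul_left (r : ℝ) (a b : Y9) : nf (r • a) b = r • nf a b := by
  simp only [nf, Prod.smul_fst, Prod.smul_snd, Complex.smul_im, smul_eq_mul, smul_sub, smul_smul, map_sub, map_smul, mul_comm, smul_neg]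
lemma nf_smul_right (r : ℝ) (a b : Y9) : nf a (r • b) = r • nf a b := by
  simp only [nf, Prod.smul_fst, Prod.smul_snd, Complex.smul_im, smul_eq_mul, smul_sub, smul_smul, map_sub, map_smul, mul_comm, smul_neg]
lemma qq_add_left (a b c : Y9) : qq (a + b) c = qq a c + qq b c := by
  simp only [qq, be_add_left, nf_add_left, smul_add]; abel
lemma qq_add_right (a b c : Y9) : qq a (b + c) = qq a b + qq a c := by
  simp only [qq, be_add_right, nf_add_right, smul_add]; abel
lemma qq_smul_left (r : ℝ) (a b : Y9) : qq (r • a) b = r • qq a b := by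
  simp only [qq, be_smul_left, nf_smul_left, smul_add, smul_smul, mul_comm]
lemma qq_smul_right (r : ℝ) (a b : Y9) : qq a (r • b) = r • qq a b := by
  simp only [qq, be_smul_right, nf_smul_right, smul_add, smul_smul, mul_comm]
lemma ef_add_left (a b c : Y9) : ef (a + b) c = ef a c + ef b c := by
  simp only [ef, Prod.fst_add, Complex.add_re, Complex.add_im]; ring
lemma ef_add_right (a b c : Y9) : ef a (b + c) = ef a b + ef a c := by
  simp only [ef, Prod.fst_add, Complex.add_re, Complex.add_im]; ring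
lemma ef_smul_left (r : ℝ) (a b : Y9) : ef (r • a) b = r * ef a b := by
  simp only [ef, Prod.smul_fst, Complex.smul_re, Complex.smul_im, smul_eq_mul]; ring
lemma ef_smul_right (r : ℝ) (a b : Y9) : ef a (r • b) = r * ef a b := by
  simp only [ef, Prod.smul_fst, Complex.smul_re, Complex.smul_im, smul_eq_mul]; ring

/-- the covector `μ_i = h₀(K_i, ·)`. -/
noncomputable def mu0 (U : Mat) (z : V) (i : Fin 8) : V →L[ℝ] ℝ := h0 z (Kf U i z)

/-- the symmetric form `∑ F_{ij} μ_i μ_j`. -/
noncomputable def FF (U : Mat) (z : V) : V →L[ℝ] V →L[ℝ] ℝ :=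
  ∑ i, ∑ j, Fsm i j • (mu0 U z i).smulRight (mu0 U z j)

lemma FF_apply (U : Mat) (z u v : V) :
    FF U z u v = ∑ i, ∑ j, Fsm i j * (mu0 U z i u * mu0 U z j v) := by
  simp [FF]

/-- the form `S` on bivectors `b = y ∧ p`, `b' = y' ∧ p'`; `lam = κ/δ²`. -/
noncomputable def S9 (U : Mat) (δ ε lam : ℝ) (z : V) (y p y' p' : Y9) : ℝ :=
  - hm U δ z (qq y p) (qq y' p')
    + (h0 z (BL U δ ε z (qq y p) p'.2) y'.2 + h0 z (BL U δ ε z (qq y' p') p.2) y.2)
    - 2 * h0 z (nf y p) (nf y' p')
    + 8 * (omL z y.2 p.2 * omL z y'.2 p'.2)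
    - (3/2) * (ef y p * ef y' p')
    + (11/4) * (ef y p * omL z y'.2 p'.2 + omL z y.2 p.2 * ef y' p')
    + ε * (mu0 U z 6 (be y p) * ((3952/27) * ef y' p' + (4301/27) * omL z y'.2 p'.2)
        + mu0 U z 6 (be y' p') * ((3952/27) * ef y p + (4301/27) * omL z y.2 p.2)
        - mu0 U z 6 (nf y p) * ((1913/27) * ef y' p' + (1930/27) * omL z y'.2 p'.2)
        - mu0 U z 6 (nf y' p') * ((1913/27) * ef y p + (1930/27) * omL z y.2 p.2))
    + ε ^ 2 * lam * (FF U z (be y p) (be y' p') + FF U z (nf y p) (nf y' p'))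

lemma S9_bil (U : Mat) (δ ε lam : ℝ) (z : V) (y p : Y9) :
    IsBilinearMap ℝ (fun y' p' : Y9 => S9 U δ ε lam z y p y' p') where
  add_left a b c := by
    simp only [S9, qq_add_left, be_add_left, nf_add_left, ef_add_left, map_add, _root_.add_apply,
      Prod.snd_add]
    ring
  smul_left r a b := by
    simp only [S9, qq_smul_left, be_smul_left, nf_smul_left, ef_smul_left, map_smul,
      _root_.smul_apply, Prod.smul_snd, smul_eq_mul]
    ring
  add_right a b c := by
    simp only [S9, qq_add_right, be_add_right, nf_add_right, ef_add_right, map_add,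
      _root_.add_apply, Prod.snd_add]
    ring
  smul_right r a b := by
    simp only [S9, qq_smul_right, be_smul_right, nf_smul_right, ef_smul_right, map_smul,
      _root_.smul_apply, Prod.smul_snd, smul_eq_mul]
    ring

/-- the form `(y', p') ↦ S(y, p, y', p')`. -/
noncomputable def S92 (U : Mat) (δ ε lam : ℝ) (z : V) (y p : Y9) : Y9 →L[ℝ] Y9 →L[ℝ] ℝ :=
  (S9_bil U δ ε lam z y p).toContinuousBilinearMap

lemma S92_apply (U : Mat) (δ ε lam : ℝ) (z : V) (y p y' p' : Y9) :
    S92 U δ ε lam z y p y' p' = S9 U δ ε lam z y p y' p' := rfl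

lemma S9_bil' (U : Mat) (δ ε lam : ℝ) (z : V) :
    IsBilinearMap ℝ (fun y p : Y9 => S92 U δ ε lam z y p) where
  add_left a b c := by
    refine ContinuousLinearMap.ext fun y' => ContinuousLinearMap.ext fun p' => ?_
    simp only [_root_.add_apply, S92_apply]
    simp only [S9, qq_add_left, be_add_left, nf_add_left, ef_add_left, map_add, _root_.add_apply,
      Prod.snd_add]
    ring
  smul_left r a b := by
    refine ContinuousLinearMap.ext fun y' => ContinuousLinearMap.ext fun p' => ?_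
    simp only [_root_.smul_apply, S92_apply]
    simp only [S9, qq_smul_left, be_smul_left, nf_smul_left, ef_smul_left, map_smul,
      _root_.smul_apply, Prod.smul_snd, smul_eq_mul]
    ring
  add_right a b c := by
    refine ContinuousLinearMap.ext fun y' => ContinuousLinearMap.ext fun p' => ?_
    simp only [_root_.add_apply, S92_apply]
    simp only [S9, qq_add_right, be_add_right, nf_add_right, ef_add_right, map_add,
      _root_.add_apply, Prod.snd_add]
    ring
  smul_right r a b := by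
    refine ContinuousLinearMap.ext fun y' => ContinuousLinearMap.ext fun p' => ?_
    simp only [_root_.smul_apply, S92_apply]
    simp only [S9, qq_smul_right, be_smul_right, nf_smul_right, ef_smul_right, map_smul,
      _root_.smul_apply, Prod.smul_snd, smul_eq_mul]
    ring

/-- the quartic form `S`. -/
noncomputable def SL9 (U : Mat) (δ ε lam : ℝ) (z : V) :
    Y9 →L[ℝ] Y9 →L[ℝ] Y9 →L[ℝ] Y9 →L[ℝ] ℝ :=
  (S9_bil' U δ ε lam z).toContinuousBilinearMap

lemma SL9_apply (U : Mat) (δ ε lam : ℝ) (z : V) (y p y' p' : Y9) :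
    SL9 U δ ε lam z y p y' p' = S9 U δ ε lam z y p y' p' := rfl

end Pool.Agent.Helper81.M9
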