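import Pool.Agent.Helper46.M8.Frame
import Pool.Agent.Helper81.M9.Basic
import Pool.Agent.Helper46.M8.Ns

/-!
# Frames, jets and the algebraic form of condition (T) for `M⁹`

The fibre frame is `e, f, V, iV, Y, iY` with `V = Ŵ₀`; indices `0, …, 5`.
A bivector `b = y ∧ p` is described by `c₁ = ε b_{eV}`, `c₂ = ε b_{f,iV}` and the matrix `B` of its
other components, `B i j = y_i p_j - y_j p_i`, where `y_i` is the product of `y` with the `i`-th vector.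
-/

open Filter Metric Module Set
open scoped Topology ContDiff Matrix Matrix.Norms.Elementwise ComplexConjugate

set_option maxSynthPendingDepth 3

namespace Pool.Agent.Helper81.M9
open Pool.Agent.Helper20.PC Pool.Agent.Helper20.HP Pool.Agent.Helper20.M8 Pool.Agent.Helper20.MB
open Pool.Agent.Helper46.M8

/-- the bundle data; `lam = κ / δ²`. -/
noncomputable def D9 (U : Mat) (δ ε lam : ℝ) : BD V Y9 where
  h := hm U δ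
  A := AL9 U δ ε
  k := kL9
  S := SL9 U δ ε lam

/-! ### frames -/

/-- `(x, (W₀, W₁, W₂, W₃), Y)`. -/
abbrev Fr9 := V × (Fin 4 → V) × V

/-- the frame of the base. -/
abbrev frB (s : Fr9) : Fr := (s.1, s.2.1)

/-- the geodesic flow on frames (in the direction `W₀`), with `Y' = DK_{Ca} Y`. -/
noncomputable def XF9 (U : Mat) (δ : ℝ) (s : Fr9) : Fr9 :=
  (s.2.1 0, fun a => - Gam (hm U δ) s.1 (s.2.1 0) (s.2.1 a), DKc U δ s.1 (s.2.1 0) s.2.2)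

/-- the vector `V = Ŵ₀`. -/
noncomputable def vF (U : Mat) (δ : ℝ) (s : Fr9) : V := hatL U δ s.1 (s.2.1 0)

/-- the frame `(V, iV, Y, iY)` of `T`. -/
noncomputable def fF (U : Mat) (δ : ℝ) (s : Fr9) : Fin 4 → V :=
  ![vF U δ s, iL (vF U δ s), s.2.2, iL s.2.2]

/-- the frame `(e, f, V, iV, Y, iY)` of the fibre. -/
noncomputable def fE (U : Mat) (δ : ℝ) (s : Fr9) : Fin 6 → Y9 :=
  ![(1, 0), (Complex.I, 0), (0, vF U δ s), (0, iL (vF U δ s)), (0, s.2.2), (0, iL s.2.2)]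

/-- the Casimir `C = h₀(V, V)`. -/
noncomputable def sC (U : Mat) (δ : ℝ) (s : Fr9) : ℝ := h0 s.1 (vF U δ s) (vF U δ s)
/-- `θ = m₆(W₀)`. -/
noncomputable def sT (U : Mat) (δ : ℝ) (s : Fr9) : ℝ := momL U δ s.1 6 (s.2.1 0)
/-- `μ_i(F_j)`. -/
noncomputable def sU (U : Mat) (δ : ℝ) (j : Fin 4) (i : Fin 8) (s : Fr9) : ℝ :=
  mu0 U s.1 i (fF U δ s j)
/-- `h(F_i, F_j)`. -/
noncomputable def sH (U : Mat) (δ : ℝ) (i j : Fin 4) (s : Fr9) : ℝ :=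
  hm U δ s.1 (fF U δ s i) (fF U δ s j)
/-- `h₀(B(F_i) F_l, F_k)`. -/
noncomputable def sB (U : Mat) (δ ε : ℝ) (i k l : Fin 4) (s : Fr9) : ℝ :=
  h0 s.1 (BL U δ ε s.1 (fF U δ s i) (fF U δ s l)) (fF U δ s k)
/-- the curvature `⟨E_i, Ω(W₀, W_k) E_j⟩`. -/
noncomputable def sR9 (U : Mat) (δ ε : ℝ) (k : Fin 4) (i j : Fin 6) (s : Fr9) : ℝ :=
  kL9 s.1 (fE U δ s i) (OmV (AL9 U δ ε) s.1 (s.2.1 0) (s.2.1 k) (fE U δ s j))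
/-- `h(W_k, iV)`. -/
noncomputable def sZ (U : Mat) (δ : ℝ) (k : Fin 4) (s : Fr9) : ℝ :=
  hm U δ s.1 (s.2.1 k) (iL (vF U δ s))
/-- `v_k = h(V, W_k)`. -/
noncomputable def sV (U : Mat) (δ : ℝ) (k : Fin 4) (s : Fr9) : ℝ :=
  hm U δ s.1 (vF U δ s) (s.2.1 k)

/-! ### the algebraic form of (T) -/

section generic
variable {R : Type*} [CommRing R] [Algebra ℝ R]

/-- the excluded pairs of indices. -/
def exc (i j : Fin 6) : Bool := (i, j) = (0, 2) ∨ (i, j) = (2, 0) ∨ (i, j) = (1, 3) ∨ (i, j) = (3, 1)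

/-- the constant part of the evolution of the components, `C = cC`. -/
noncomputable def N0 (cC : ℝ) : Fin 6 → Fin 6 → ℝ := ![
  ![0, 0, 1/2, 0, 0, 0],
  ![0, 0, 0, 1/4, 0, 0],
  ![-(1/2) * cC, 0, 0, 0, 0, 0],
  ![0, -(1/4) * cC, 0, 0, 0, 0],
  ![0, 0, 0, 0, 0, 0],
  ![0, 0, 0, 0, 0, 0]]

/-- the part of the evolution proportional to `εθ`. -/
def J6 : Fin 6 → Fin 6 → ℝ := ![
  ![0, 0, 0, 0, 0, 0],
  ![0, 0, 0, 0, 0, 0],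
  ![0, 0, 0, 1, 0, 0],
  ![0, 0, -1, 0, 0, 0],
  ![0, 0, 0, 0, 0, 1],
  ![0, 0, 0, 0, -1, 0]]

/-- the derivative of `c₁`. -/
def d1 (ε : ℝ) (th : R) (B : Fin 6 → Fin 6 → R) : R := (ε ^ 2) • (th * B 0 3)
/-- the derivative of `c₂`. -/
def d2 (ε : ℝ) (th : R) (B : Fin 6 → Fin 6 → R) : R := -((ε ^ 2) • (th * B 1 2))

/-- the derivative of `B`. -/
noncomputable def dB (cC ε : ℝ) (th c₁ c₂ : R) (B : Fin 6 → Fin 6 → R) (i j : Fin 6) : R :=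
  if exc i j then 0 else
    (∑ k, (N0 cC i k • B k j + N0 cC j k • B i k))
      + ε • (th * ∑ k, (J6 i k • B k j + J6 j k • B i k))
      + (if (i, j) = (0, 3) then -(th * c₁) else if (i, j) = (3, 0) then th * c₁ else
          if (i, j) = (1, 2) then th * c₂ else if (i, j) = (2, 1) then -(th * c₂) else 0)

/-- the coefficients of `q' = ∑ q_j F_j`. -/
noncomputable def qv (cC : ℝ) (B : Fin 6 → Fin 6 → R) : Fin 4 → R :=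
  ![0, cC⁻¹ • ((1/2 : ℝ) • B 0 3 - (1/4 : ℝ) • B 1 2), (1/2 : ℝ) • B 0 4 + (1/4 : ℝ) • B 1 5,
    (1/2 : ℝ) • B 0 5 - (1/4 : ℝ) • B 1 4]

/-- the inverse square norms of the frame. -/
noncomputable def nn6 (cC : ℝ) : Fin 6 → ℝ := ![1, 1, cC⁻¹, cC⁻¹, 1, 1]

/-- contraction of `b` with a matrix. -/
noncomputable def con (cC : ℝ) (B : Fin 6 → Fin 6 → R) (r : Fin 6 → Fin 6 → R) : R :=
  (1/2 : ℝ) • ∑ i, ∑ j, (nn6 cC i * nn6 cC j) • (B i j * r i j)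

/-- `⟨B(F_i), b_T⟩`. -/
noncomputable def bb (cC : ℝ) (B : Fin 6 → Fin 6 → R) (r : Fin 4 → Fin 4 → R) : R :=
  (1/2 : ℝ) • ∑ k : Fin 4, ∑ l : Fin 4,
    (nn6 cC (k.natAdd 2) * nn6 cC (l.natAdd 2)) • (B (k.natAdd 2) (l.natAdd 2) * r k l)

/-- `ω(b_T)`. -/
noncomputable def omb (cC : ℝ) (B : Fin 6 → Fin 6 → R) : R := cC⁻¹ • B 2 3 + B 4 5

/-- `ε μ_i(b_e)`. -/
noncomputable def me (cC ε : ℝ) (μ : Fin 4 → Fin 8 → R) (c₁ : R) (B : Fin 6 → Fin 6 → R)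
    (i : Fin 8) : R :=
  cC⁻¹ • (c₁ * μ 0 i) + ε • (cC⁻¹ • (B 0 3 * μ 1 i) + B 0 4 * μ 2 i + B 0 5 * μ 3 i)

/-- `ε μ_i(- i b_f)`. -/
noncomputable def mf (cC ε : ℝ) (μ : Fin 4 → Fin 8 → R) (c₂ : R) (B : Fin 6 → Fin 6 → R)
    (i : Fin 8) : R :=
  cC⁻¹ • (c₂ * μ 0 i) + ε • (-(cC⁻¹ • (B 1 2 * μ 1 i)) + B 1 5 * μ 2 i - B 1 4 * μ 3 i)

/-- the regular part of `S`. -/
noncomputable def SG9 (cC ε lam : ℝ) (μ : Fin 4 → Fin 8 → R) (H : Fin 4 → Fin 4 → R)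
    (bB : Fin 4 → Fin 4 → Fin 4 → R) (c₁ c₂ : R) (B : Fin 6 → Fin 6 → R) : R :=
  (2 : ℝ) • (∑ i, qv cC B i * bb cC B (bB i)) - (∑ i, ∑ j, qv cC B i * qv cC B j * H i j)
    - (2 : ℝ) • (cC⁻¹ • (B 1 2 ^ 2) + B 1 4 ^ 2 + B 1 5 ^ 2)
    + (8 : ℝ) • (omb cC B ^ 2) - (3/2 : ℝ) • (B 0 1 ^ 2) + (11/2 : ℝ) • (B 0 1 * omb cC B)
    + (2 : ℝ) • (me cC ε μ c₁ B 6 * ((3952/27 : ℝ) • B 0 1 + (4301/27 : ℝ) • omb cC B))
    - (2 : ℝ) • (mf cC ε μ c₂ B 6 * ((1913/27 : ℝ) • B 0 1 + (1930/27 : ℝ) • omb cC B))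
    + lam • (Fx (xc (me cC ε μ c₁ B)) + Fx (xc (mf cC ε μ c₂ B)))

/-- `υ = ⟨Υ, b'⟩`. -/
noncomputable def up (cC : ℝ) (H : Fin 4 → Fin 4 → R) (bB : Fin 4 → Fin 4 → Fin 4 → R)
    (B : Fin 6 → Fin 6 → R) : R :=
  bb cC B (bB 0) - ∑ j, qv cC B j * H 0 j

/-- `τ'`. -/
noncomputable def td (cC ε : ℝ) (th : R) (B : Fin 6 → Fin 6 → R) : R := ε • (th * qv cC B 1)

/-- the regular part of the curvature. -/
noncomputable def OG9 (cC : ℝ) (th : R) (Z : R) (ρ : Fin 6 → Fin 6 → R) (c₁ c₂ : R)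
    (B : Fin 6 → Fin 6 → R) : R :=
  cC⁻¹ • (((1/2 : ℝ) • c₁ + (1/4 : ℝ) • c₂) * (th * Z)) + con cC B ρ

end generic

/-- jets of `c₁`, `c₂`, `B`. -/
noncomputable def j1 (cC ε : ℝ) (th : J2) (c₁ c₂ : ℝ) (B : Fin 6 → Fin 6 → ℝ) : J2 :=
  ⟨c₁, d1 ε th.a B, (d1 (R := J2) ε th (fun i j => ⟨B i j, dB cC ε th.a c₁ c₂ B i j, 0⟩)).b⟩

noncomputable def j2 (cC ε : ℝ) (th : J2) (c₁ c₂ : ℝ) (B : Fin 6 → Fin 6 → ℝ) : J2 :=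
  ⟨c₂, d2 ε th.a B, (d2 (R := J2) ε th (fun i j => ⟨B i j, dB cC ε th.a c₁ c₂ B i j, 0⟩)).b⟩

noncomputable def jB (cC ε : ℝ) (th : J2) (c₁ c₂ : ℝ) (B : Fin 6 → Fin 6 → ℝ) (i j : Fin 6) : J2 :=
  ⟨B i j, dB cC ε th.a c₁ c₂ B i j, (dB (R := J2) cC ε th ⟨c₁, d1 ε th.a B, 0⟩ ⟨c₂, d2 ε th.a B, 0⟩
    (fun i j => ⟨B i j, dB cC ε th.a c₁ c₂ B i j, 0⟩) i j).b⟩

/-- The algebraic form of (T). `K` is the curvature of the plane `W₀ ∧ W₁`, `v1 = v₁'`. -/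
noncomputable def Tj9 (cC ε lam K v1 : ℝ) (th : J2) (μ : Fin 4 → Fin 8 → J2)
    (H : Fin 4 → Fin 4 → J2) (bB : Fin 4 → Fin 4 → Fin 4 → J2) (Z : Fin 4 → J2)
    (ρ : Fin 4 → Fin 6 → Fin 6 → J2) (u c₁ c₂ : ℝ) (B : Fin 6 → Fin 6 → ℝ) : ℝ :=
  let C₁ := j1 cC ε th c₁ c₂ B
  let C₂ := j2 cC ε th c₁ c₂ B
  let b := jB cC ε th c₁ c₂ B
  K * u ^ 2 + u * (OG9 cC th (Z 1) (ρ 1) C₁ C₂ b).b
    + (1/4) * ∑ k : Fin 3, (OG9 cC th (Z k.succ) (ρ k.succ) C₁ C₂ b).a ^ 2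
    + (1/2) * (SG9 cC ε lam μ H bB C₁ C₂ b).c
    + 2 * cC⁻¹ * (c₂ * (th * b 1 2).b - ε ^ 2 * (th * b 1 2).a ^ 2)
    - 2 * (td cC ε th b).a * u * v1 - (td cC ε th b).a ^ 2 * (H 0 0).a
    + 2 * (td cC ε th b).a * (up cC H bB b).b + (td cC ε th b).b * (up cC H bB b).a

/-- condition (T) for the metric, in a frame `(W, Y)` at the origin. -/
noncomputable def TF9 (U : Mat) (δ ε lam : ℝ) (W : Fin 4 → V) (Y : V) (u c₁ c₂ : ℝ)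
    (B : Fin 6 → Fin 6 → ℝ) : ℝ :=
  let s : Fr9 := (0, W, Y)
  Tj9 (sC U δ s) ε lam (num (hm U δ) 0 (W 0) (W 1)) (lie (XF9 U δ) (sV U δ 1) s)
    (jetF (XF9 U δ) (sT U δ) s) (fun j i => jetF (XF9 U δ) (sU U δ j i) s)
    (fun i j => jetF (XF9 U δ) (sH U δ i j) s) (fun i k l => jetF (XF9 U δ) (sB U δ ε i k l) s)
    (fun k => jetF (XF9 U δ) (sZ U δ k) s) (fun k i j => jetF (XF9 U δ) (sR9 U δ ε k i j) s)
    u c₁ c₂ B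

end Pool.Agent.Helper81.M9
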