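import Pool.Agent.Helper46.M8.Defs2
import Pool.Agent.Helper81.M9.Frame
import Pool.Agent.Helper46.M8.Ns

/-!
# Further definitions for `M⁹`
-/

open Filter Metric Module Set
open scoped Topology ContDiff Matrix Matrix.Norms.Elementwise ComplexConjugate

set_option maxSynthPendingDepth 3

namespace Pool.Agent.Helper81.M9
open Pool.Agent.Helper20.PC Pool.Agent.Helper20.HP Pool.Agent.Helper20.M8 Pool.Agent.Helper20.MB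
open Pool.Agent.Helper46.M8

/-- admissible frames: `W` is orthonormal for `h`, and `Y` is a unit vector for `h₀` orthogonal to
`V` and `iV`. -/
def ON9 (U : Mat) (δ : ℝ) (s : Fr9) : Prop :=
  ON (hm U δ s.1) s.2.1 ∧ h0 s.1 s.2.2 s.2.2 = 1 ∧ h0 s.1 (vF U δ s) s.2.2 = 0 ∧
    h0 s.1 (iL (vF U δ s)) s.2.2 = 0

/-- the constraints on `(c₁, c₂, B)`. -/
def Cns9 (ε c₁ c₂ : ℝ) (B : Fin 6 → Fin 6 → ℝ) : Prop :=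
  (∀ i j, B i j = - B j i) ∧ B 0 2 = 0 ∧ B 1 3 = 0 ∧
    c₁ * c₂ = ε ^ 2 * (B 0 1 * B 2 3 + B 0 3 * B 1 2) ∧
    (∀ k l, k ≠ 0 → k ≠ 2 → l ≠ 0 → l ≠ 2 → exc k l = false →
      c₁ * B k l = ε * (B 0 k * B 2 l - B 0 l * B 2 k)) ∧
    (∀ k l, k ≠ 1 → k ≠ 3 → l ≠ 1 → l ≠ 3 → exc k l = false →
      c₂ * B k l = ε * (B 1 k * B 3 l - B 1 l * B 3 k)) ∧
    B 0 1 * B 4 5 - B 0 4 * B 1 5 + B 0 5 * B 1 4 = 0 ∧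
    B 2 3 * B 4 5 - B 2 4 * B 3 5 + B 2 5 * B 3 4 = 0

/-- square norm of `(u, c₁, c₂, B)`. -/
def nrm9 (u c₁ c₂ : ℝ) (B : Fin 6 → Fin 6 → ℝ) : ℝ :=
  u ^ 2 + c₁ ^ 2 + c₂ ^ 2 + ∑ i, ∑ j, B i j ^ 2

/-! ### frames with two vectors of the fibre -/

/-- `(frame, y, p)`. -/
abbrev Fs9 := Fr9 × Y9 × Y9

/-- the flow on `Fs9`. -/
noncomputable def XB9 (U : Mat) (δ ε : ℝ) (s : Fs9) : Fs9 :=
  (XF9 U δ s.1, - AL9 U δ ε s.1.1 (s.1.2.1 0) s.2.1, - AL9 U δ ε s.1.1 (s.1.2.1 0) s.2.2)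

/-- the components `y_i`. -/
noncomputable def cmp (U : Mat) (δ : ℝ) (s : Fr9) (y : Y9) (i : Fin 6) : ℝ :=
  kL9 s.1 (fE U δ s i) y

/-- `b_{ij} = y_i p_j - y_j p_i`. -/
noncomputable def bF (U : Mat) (δ : ℝ) (s : Fs9) (i j : Fin 6) : ℝ :=
  cmp U δ s.1 s.2.1 i * cmp U δ s.1 s.2.2 j - cmp U δ s.1 s.2.1 j * cmp U δ s.1 s.2.2 i

/-- `c₁ = ε b_{eV}`. -/
noncomputable def c1S (U : Mat) (δ ε : ℝ) (s : Fs9) : ℝ := ε * bF U δ s 0 2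
/-- `c₂ = ε b_{f,iV}`. -/
noncomputable def c2S (U : Mat) (δ ε : ℝ) (s : Fs9) : ℝ := ε * bF U δ s 1 3
/-- the other components. -/
noncomputable def BS (U : Mat) (δ : ℝ) (s : Fs9) (i j : Fin 6) : ℝ :=
  if exc i j then 0 else bF U δ s i j

/-- `τ = (½ b_{eV} + ¼ b_{f,iV}) / C`. -/
noncomputable def tauS (U : Mat) (δ : ℝ) (s : Fs9) : ℝ :=
  (sC U δ s.1)⁻¹ * ((1/2) * bF U δ s 0 2 + (1/4) * bF U δ s 1 3)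

/-- configurations `(U, δ, ε; W, Y; u, c₁, c₂, B)`. -/
abbrev Cf9 := Pm × ((Fin 4 → V) × V) × ℝ × ℝ × ℝ × (Fin 6 → Fin 6 → ℝ)

noncomputable def TFp9 (lam : ℝ) (q : Cf9) : ℝ :=
  TF9 q.1.1 q.1.2.1 q.1.2.2 lam q.2.1.1 q.2.1.2 q.2.2.1 q.2.2.2.1 q.2.2.2.2.1 q.2.2.2.2.2

/-- the compact set of configurations. -/
def Kc9 : Set Cf9 :=
  {q | q.1.1ᴴ * q.1.1 = 1 ∧ 0 ≤ q.1.2.1 ∧ q.1.2.1 ≤ 1/100 ∧ 0 ≤ q.1.2.2 ∧ q.1.2.2 ≤ 1 ∧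
    ON9 q.1.1 q.1.2.1 (0, q.2.1.1, q.2.1.2) ∧ Cns9 q.1.2.2 q.2.2.2.1 q.2.2.2.2.1 q.2.2.2.2.2 ∧
    nrm9 q.2.2.1 q.2.2.2.1 q.2.2.2.2.1 q.2.2.2.2.2 = 1}

/-! ### the fields `X_H` (geodesic flow) and `X_F` (Casimir flow) on `TV` -/

/-- the geodesic field. -/
noncomputable def XHt (U : Mat) (δ : ℝ) (s : V × V) : V × V := (s.2, - Gam (hm U δ) s.1 s.2 s.2)

/-- the Casimir field. -/
noncomputable def XCt (U : Mat) (δ : ℝ) (s : V × V) : V × V :=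
  (hatL U δ s.1 s.2, DKc U δ s.1 s.2 (hatL U δ s.1 s.2))

/-- the covariant derivative `D_t V = w_s + Γ(w, V)`. -/
noncomputable def DV (U : Mat) (δ : ℝ) (s : V × V) : V :=
  DKc U δ s.1 s.2 (hatL U δ s.1 s.2) + Gam (hm U δ) s.1 s.2 (hatL U δ s.1 s.2)

/-- the torsion `T̂(u, v)` of `ζ ↦ ζ̂`. -/
noncomputable def TH (U : Mat) (δ ε : ℝ) (z u v : V) : V :=
  fderiv ℝ (hatL U δ) z u v - fderiv ℝ (hatL U δ) z v u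
    + (GamL h0 z u (hatL U δ z v) + BL U δ ε z u (hatL U δ z v))
    - (GamL h0 z v (hatL U δ z u) + BL U δ ε z v (hatL U δ z u))

/-- the endomorphism `A(V) + DK_a = B(V) + Λ_{V̂}` of the fibre. -/
noncomputable def UpL (U : Mat) (δ ε : ℝ) (z w : V) (y : Y9) : Y9 :=
  LamL z (hatL U δ z (hatL U δ z w)) y + (0, BL U δ ε z (hatL U δ z w) y.2)

/-! ### the limit -/

/-- the limit of (T) for `δ, ε → 0` in an adapted frame: `u = (u₁, u₂, u₃)` components along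
`iX, Y, iY`; `a₁ = c₁ θ`, `a₂ = c₂ θ`. -/
noncomputable def TlimF9 (u : Fin 3 → ℝ) (a₁ a₂ : ℝ) (B : Fin 6 → Fin 6 → ℝ) : ℝ :=
  39/64 * B 0 1 ^ 2 + 131/128 * (B 0 1 * B 2 3) - 209/48 * (a₁ * B 0 1) + 443/96 * (a₂ * B 0 1)
    + 89/64 * (B 0 1 * B 4 5) + 1397/1024 * B 2 3 ^ 2 - 553/64 * (a₁ * B 2 3)
    + 815/128 * (a₂ * B 2 3) + 15/8 * (B 2 3 * B 4 5) + 85/64 * B 0 3 ^ 2 - 9/16 * (B 0 3 * B 1 2)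
    - 57/32 * (u 0 * B 0 3) + 1/16 * B 0 4 ^ 2 + 5/128 * (B 0 4 * B 1 5) - 3/8 * (u 1 * B 0 4)
    + 1/16 * B 0 5 ^ 2 - 5/128 * (B 0 5 * B 1 4) - 3/8 * (u 2 * B 0 5) + 33/256 * B 1 4 ^ 2
    + 15/64 * (u 2 * B 1 4) + 33/256 * B 1 5 ^ 2 - 15/64 * (u 1 * B 1 5) + 5/64 * B 2 4 ^ 2
    + 41/128 * (B 2 4 * B 3 5) + 5/64 * B 2 5 ^ 2 - 41/128 * (B 2 5 * B 3 4) + 93/1024 * B 3 4 ^ 2
    + 93/1024 * B 3 5 ^ 2 + 6173/144 * a₁ ^ 2 - 7427/144 * (a₁ * a₂) + 61/16 * (a₁ * B 4 5)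
    + 10085/576 * a₂ ^ 2 + 7/8 * (a₂ * B 4 5) + B 4 5 ^ 2 + 29/256 * B 1 2 ^ 2
    + 51/64 * (u 0 * B 1 2) + 4 * u 0 ^ 2 + u 1 ^ 2 + u 2 ^ 2

end Pool.Agent.Helper81.M9
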