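import Pool.Agent.Helper81.M9.St.H2
import Pool.Agent.Helper46.M9.Final
import Pool.Agent.Helper46.M9.St.N9

/-!
# The metric of positive curvature on `M⁹`
-/

open Filter Metric Module Set
open scoped Topology ContDiff Matrix Matrix.Norms.Elementwise Manifold

namespace Pool.Agent.Helper81.M9
open Pool.Agent.Helper20.HP Pool.Agent.Helper20.MB Pool.Agent.Helper46.M8 Pool.Agent.Helper46.M9

/-- `M⁹` has a smooth structure for which the inclusion in the space of matrices is an immersion,
and a smooth metric with positive sectional curvature. -/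
theorem M9_final :
    ∃ (_ : ChartedSpace (EuclideanSpace ℝ (Fin 9)) M9) (_ : IsManifold (𝓡 9) ∞ M9),
      IsSmoothImmersion (𝓡 9) inclM9 ∧ AdmitsPositiveCurvature (𝓡 9) M9 := by
  obtain ⟨δ, ε, lam, hδ, H⟩ := TE_pos9
  refine M9_final_of_TE (D := fun U => D9 U δ ε lam)
    (inv9_of_good hδ fun U hU z => D9_good hU hδ ε lam z)
    (fun U hU => SmF9 hU hδ ε lam) fun U hU X Z y w h1 h2 h3 h4 h5 => ?_
  exact H U hU X Z y w h1 h2 h3 h4 h5

end Pool.Agent.Helper81.M9
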